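import Mathlib

/-!
# Vinogradov mean values below the critical exponent: definitions (helper22)
-/

set_option autoImplicit false

open Finset Polynomial

namespace Pool.Agent.H22.VM

/-- `e x = exp(2 π i x)` -/
noncomputable def e (x : ℝ) : ℂ := Complex.exp (2 * Real.pi * x * Complex.I)

/-- the critical exponent `k(k+1)/2` -/
noncomputable def KK (k : ℕ) : ℝ := (k : ℝ) * (k + 1) / 2

section
variable {ι Ω : Type}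

/-- the class of the indices `i ∈ R` with `r i ≡ ξ mod p^a` -/
def cls (p : ℕ) (R : Finset ι) (r : ι → ℤ) (a : ℕ) (ξ : ℤ) : Finset ι :=
  R.filter (fun i => ((p : ℤ) ^ a) ∣ r i - ξ)

/-- block sum -/
noncomputable def bs (F : ι → Ω → ℂ) (A : Finset ι) (ω : Ω) : ℂ := ∑ i ∈ A, F i ω

variable [Fintype Ω]

/-- moment `∑ w |F_A|^{2s}` -/
noncomputable def mo (w : Ω → ℝ) (F : ι → Ω → ℂ) (s : ℝ) (A : Finset ι) : ℝ :=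
  ∑ ω, w ω * ‖bs F A ω‖ ^ (2 * s)

/-- mixed moment `∑ w |F_A|^{2t} |F_B|^{2u}` -/
noncomputable def mm (w : Ω → ℝ) (F : ι → Ω → ℂ) (A : Finset ι) (t : ℝ) (B : Finset ι) (u : ℝ) :
    ℝ :=
  ∑ ω, w ω * (‖bs F A ω‖ ^ (2 * t) * ‖bs F B ω‖ ^ (2 * u))

/-- invariance of degree `k` and modulus `q`: every polynomial phase of degree `≤ k` with
denominator `q` is realised, up to a common unimodular factor, by a permutation of `Ω`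
preserving the weight -/
def Inv (k q : ℕ) (w : Ω → ℝ) (R : Finset ι) (r : ι → ℤ) (F : ι → Ω → ℂ) : Prop :=
  ∀ P : ℤ[X], P.natDegree ≤ k → ∃ T : Equiv.Perm Ω, (∀ ω, w (T ω) = w ω) ∧
    ∃ φ : Ω → ℂ, (∀ ω, ‖φ ω‖ = 1) ∧
      ∀ i ∈ R, ∀ ω, F i (T ω) = φ ω * e (((P.eval (r i) : ℤ) : ℝ) / (q : ℝ)) * F i ω

/-- bilinear bound with deficit `x` -/
def BL (p : ℕ) (s : ℝ) (n : ℕ) (w : Ω → ℝ) (R : Finset ι) (r : ι → ℤ) (F : ι → Ω → ℂ)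
    (M L : ℝ) (t : ℝ) (a b : ℕ) (x : ℝ) : Prop :=
  ∀ ξ η : ℤ, ¬ (p : ℤ) ∣ ξ - η →
    mm w F (cls p R r a ξ) t (cls p R r b η) (s - t) ≤
      Real.exp (L - x) * (((p : ℝ) ^ (n - a)) ^ t * ((p : ℝ) ^ (n - b)) ^ (s - t)) * M

/-- the statements `P(l,b,x)` of the recursion -/
def PP (p k : ℕ) (σ : ℕ → ℝ) (s : ℝ) (n : ℕ) (w : Ω → ℝ) (R : Finset ι) (r : ι → ℤ)
    (F : ι → Ω → ℂ) (M L : ℝ) (l b : ℕ) (x : ℝ) : Prop :=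
  (l = 0 → x ≤ 0) ∧
  (l = 1 → ∀ a : ℕ, 1 ≤ a → a ≤ n → 4 * a ≤ 3 * k * b → BL p s n w R r F M L 1 a b x) ∧
  (2 ≤ l → BL p s n w R r F M L (σ l) (min ((k - l + 1) * b / l) n) b x)

end

/-- flat decoupling constant of degree `k`, exponent `2s` at scale `p^n` -/
def Flat (p k : ℕ) (s : ℝ) (n : ℕ) (A : ℝ) : Prop :=
  ∀ (ι Ω : Type) [Fintype Ω] (w : Ω → ℝ) (R : Finset ι) (r : ι → ℤ) (F : ι → Ω → ℂ) (M : ℝ),
    (∀ ω, 0 ≤ w ω) → Inv k (p ^ (k * n)) w R r F →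
    (∀ ζ : ℤ, mo w F s (cls p R r n ζ) ≤ M) →
    mo w F s R ≤ A * ((p : ℝ) ^ n) ^ s * M

/-- mean value constant for bounded coefficients -/
def Uni (p k : ℕ) (s : ℝ) (B : ℕ) (A : ℝ) : Prop :=
  ∀ (ι Ω : Type) [Fintype Ω] (w : Ω → ℝ) (R : Finset ι) (r : ι → ℤ) (F : ι → Ω → ℂ),
    (∀ ω, 0 ≤ w ω) → Inv k (p ^ (k * B)) w R r F →
    (∀ i ∈ R, ∀ ω, ‖F i ω‖ ≤ 1) → Set.InjOn r R → (∀ i ∈ R, 0 ≤ r i ∧ r i < (p : ℤ) ^ B) →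
    mo w F s R ≤ A * ((p : ℝ) ^ B) ^ s * ∑ ω, w ω

/-- interpolation weights -/
noncomputable def wt (k : ℕ) (σ : ℕ → ℝ) (s : ℝ) (l : ℕ) : ℝ :=
  (σ l - σ (l - 1)) / (s - σ (k - l) - σ (l - 1))

/-- conditions on the parameters -/
def Par (k : ℕ) (σ ρ : ℕ → ℝ) (γ η s : ℝ) : Prop :=
  σ 0 = 0 ∧ σ 1 = 1 ∧ ρ 0 = 0 ∧
  ∀ l : ℕ, 1 ≤ l → l < k →
    0 < ρ l ∧ 1 ≤ σ l ∧ σ l ≤ s - 1 ∧ 0 < σ l - σ (l - 1) ∧ 0 < s - σ (k - l) - σ l ∧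
    (1 + η) * ρ l ≤ wt k σ s l * (((k - l + 1 : ℕ) : ℝ) / (l : ℝ)) ^ γ * ρ (k - l) +
      (1 - wt k σ s l) * ρ (l - 1)

/-- the pairs `(x, y)` of `s`-tuples in `[1, N]` with equal power sums of degree `1, …, k`;
their number is `J_{s,k}(N)` -/
def sols (s k N : ℕ) : Finset ((Fin s → ℕ) × (Fin s → ℕ)) :=
  ((Fintype.piFinset fun _ : Fin s => Finset.Icc 1 N) ×ˢ
    (Fintype.piFinset fun _ : Fin s => Finset.Icc 1 N)).filter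
    (fun p => ∀ j : Fin k, ∑ i, p.1 i ^ (j.val + 1) = ∑ i, p.2 i ^ (j.val + 1))

end Pool.Agent.H22.VM
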