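import Pool.Agent.H22.VM.Defs

/-!
# Vinogradov mean values below the critical exponent: targets (helper22)

Every `T_X` is a proposition to be proved in a module of its own. All systems `(Ω, w, R, r, F)` are
finite. See `Defs.lean`.
-/

set_option autoImplicit false

open Finset Polynomial

namespace Pool.Agent.H22.VM

/-- EX: properties of `e`. -/
def T_EX : Prop :=
  (∀ x : ℝ, ‖e x‖ = 1) ∧ (∀ x y : ℝ, e (x + y) = e x * e y) ∧ (∀ m : ℤ, e (m : ℝ) = 1) ∧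
  (∀ x : ℝ, e (-x) = (starRingEnd ℂ) (e x)) ∧
  (∀ (q : ℕ) (m : ℤ), 0 < q → ∑ h ∈ range q, e ((((h : ℤ) * m : ℤ) : ℝ) / (q : ℝ)) =
    if (q : ℤ) ∣ m then (q : ℂ) else 0)

/-- CL: combinatorics of classes. -/
def T_CL : Prop :=
  ∀ (p : ℕ), 1 < p → ∀ (ι : Type) (R : Finset ι) (r : ι → ℤ),
    (∀ (a b : ℕ) (ξ ζ : ℤ), cls p (cls p R r a ξ) (fun i => (r i - ξ) / (p : ℤ) ^ a) b ζ =
      cls p R r (a + b) (ξ + (p : ℤ) ^ a * ζ)) ∧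
    (∀ (a a' : ℕ) (ξ ζ : ℤ), a ≤ a' → (p : ℤ) ^ a ∣ ζ - ξ → cls p R r a' ζ ⊆ cls p R r a ξ) ∧
    (∀ (a : ℕ) (ξ ζ : ℤ), (p : ℤ) ^ a ∣ ζ - ξ → cls p R r a ζ = cls p R r a ξ) ∧
    (∀ ξ : ℤ, cls p R r 0 ξ = R) ∧
    (∀ (E : Type) [AddCommMonoid E] (f : ι → E) (a a' : ℕ) (ξ : ℤ), a ≤ a' →
      ∑ i ∈ cls p R r a ξ, f i =
        ∑ j ∈ range (p ^ (a' - a)), ∑ i ∈ cls p R r a' (ξ + (p : ℤ) ^ a * (j : ℤ)), f i)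

/-- SB: a residue class of an invariant system is invariant after rescaling. -/
def T_SB : Prop :=
  ∀ (p k m a : ℕ) (ξ : ℤ), 1 < p → k * a ≤ m → ∀ (ι Ω : Type) [Fintype Ω] (w : Ω → ℝ)
    (R : Finset ι) (r : ι → ℤ) (F : ι → Ω → ℂ), Inv k (p ^ m) w R r F →
      Inv k (p ^ (m - k * a)) w (cls p R r a ξ) (fun i => (r i - ξ) / (p : ℤ) ^ a) F

/-- OR: orthogonality (efficient congruencing at level one). -/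
def T_OR : Prop :=
  ∀ (p k m a a' b : ℕ) (ξ η : ℤ), p.Prime → k < p → 1 ≤ k → 1 ≤ a → a ≤ a' → a' ≤ k * b →
    k * b ≤ m → ¬ (p : ℤ) ∣ ξ - η → ∀ (ι Ω : Type) [Fintype Ω] (w : Ω → ℝ)
    (R : Finset ι) (r : ι → ℤ) (F : ι → Ω → ℂ), Inv k (p ^ m) w R r F → ∀ u : ℝ,
      mm w F (cls p R r a ξ) 1 (cls p R r b η) u =
        ∑ j ∈ range (p ^ (a' - a)),
          mm w F (cls p R r a' (ξ + (p : ℤ) ^ a * (j : ℤ))) 1 (cls p R r b η) u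

/-- LN: prescribing Taylor coefficients of order `1, …, l` by a polynomial of degree `≤ k`
divisible by `X ^ (k - l + 1)`. -/
def T_LN : Prop :=
  ∀ (p k l m : ℕ) (u : ℤ), p.Prime → k < p → 1 ≤ l → l ≤ k → ¬ (p : ℤ) ∣ u → ∀ c : ℕ → ℤ,
    ∃ Q : ℤ[X], Q.natDegree ≤ k ∧ (X : ℤ[X]) ^ (k - l + 1) ∣ Q ∧
      ∀ i : ℕ, 1 ≤ i → i ≤ l → (p : ℤ) ^ m ∣ (taylor u Q).coeff i - c i

/-- SG: the stage lemma: a class is a system of degree `l`, relative to a transversal class. -/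
def T_SG : Prop :=
  ∀ (p k l m a b n' : ℕ) (ξ η : ℤ) (u : ℝ), p.Prime → k < p → 1 ≤ l → l < k → 1 ≤ a →
    k * b ≤ m → l * (a + n') ≤ (l + 1) * a → l * (a + n') ≤ (k - l + 1) * b →
    ¬ (p : ℤ) ∣ ξ - η → ∀ (ι Ω : Type) [Fintype Ω] (w : Ω → ℝ)
    (R : Finset ι) (r : ι → ℤ) (F : ι → Ω → ℂ), Inv k (p ^ m) w R r F →
      Inv l (p ^ (l * n')) (fun ω => w ω * ‖bs F (cls p R r b η) ω‖ ^ (2 * u))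
        (cls p R r a ξ) (fun i => (r i - ξ) / (p : ℤ) ^ a) F

/-- R1: one raising step. -/
def T_R1 : Prop :=
  ∀ (p k l m a b n' : ℕ) (ξ η : ℤ) (u τ A M' : ℝ), p.Prime → k < p → 1 ≤ l → l < k → 1 ≤ a →
    k * b ≤ m → l * (a + n') ≤ (l + 1) * a → l * (a + n') ≤ (k - l + 1) * b →
    ¬ (p : ℤ) ∣ ξ - η → Flat p l τ n' A → ∀ (ι Ω : Type) [Fintype Ω] (w : Ω → ℝ)
    (R : Finset ι) (r : ι → ℤ) (F : ι → Ω → ℂ), (∀ ω, 0 ≤ w ω) → Inv k (p ^ m) w R r F →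
      (∀ ζ : ℤ, (p : ℤ) ^ a ∣ ζ - ξ →
        mm w F (cls p R r (a + n') ζ) τ (cls p R r b η) u ≤ M') →
      mm w F (cls p R r a ξ) τ (cls p R r b η) u ≤ A * ((p : ℝ) ^ n') ^ τ * M'

/-- HO: Hölder's inequality for weighted finite sums. -/
def T_HO : Prop :=
  ∀ (Ω : Type) [Fintype Ω] (w f g : Ω → ℝ) (lam : ℝ), (∀ ω, 0 ≤ w ω) → (∀ ω, 0 ≤ f ω) →
    (∀ ω, 0 ≤ g ω) → 0 ≤ lam → lam ≤ 1 →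
      ∑ ω, w ω * (f ω ^ (1 - lam) * g ω ^ lam) ≤
        (∑ ω, w ω * f ω) ^ (1 - lam) * (∑ ω, w ω * g ω) ^ lam

/-- BI: interpolation of bilinear bounds. -/
def T_BI : Prop :=
  ∀ (p n a b : ℕ) (s M L t₁ t₂ lam x y : ℝ), 1 < p → 0 ≤ M → 0 ≤ t₁ → t₁ ≤ s → 0 ≤ t₂ → t₂ ≤ s →
    0 ≤ lam → lam ≤ 1 → ∀ (ι Ω : Type) [Fintype Ω] (w : Ω → ℝ)
    (R : Finset ι) (r : ι → ℤ) (F : ι → Ω → ℂ), (∀ ω, 0 ≤ w ω) →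
      BL p s n w R r F M L t₁ a b x → BL p s n w R r F M L t₂ a b y →
      BL p s n w R r F M L ((1 - lam) * t₁ + lam * t₂) a b ((1 - lam) * x + lam * y)

/-- B0: trivial bilinear bounds, symmetry, monotonicity, and the bound at the finest scale. -/
def T_B0 : Prop :=
  ∀ (p n : ℕ) (s M L : ℝ), 1 < p → 0 ≤ M → 0 < s → ∀ (ι Ω : Type) [Fintype Ω] (w : Ω → ℝ)
    (R : Finset ι) (r : ι → ℤ) (F : ι → Ω → ℂ), (∀ ω, 0 ≤ w ω) →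
    (∀ a ≤ n, ∀ ξ : ℤ, mo w F s (cls p R r a ξ) ≤
      Real.exp L * ((p : ℝ) ^ (n - a)) ^ s * M) →
    (∀ ζ : ℤ, mo w F s (cls p R r n ζ) ≤ M) →
      (∀ (t : ℝ) (a b : ℕ), 0 ≤ t → t ≤ s → a ≤ n → b ≤ n → BL p s n w R r F M L t a b 0) ∧
      (∀ (t : ℝ) (b : ℕ), 0 ≤ t → t ≤ s → b ≤ n →
        BL p s n w R r F M L t n b (t / s * L)) ∧
      (∀ (t : ℝ) (a b : ℕ) (x : ℝ), BL p s n w R r F M L t a b x →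
        BL p s n w R r F M L (s - t) b a x) ∧
      (∀ (t : ℝ) (a b : ℕ) (x y : ℝ), y ≤ x → BL p s n w R r F M L t a b x →
        BL p s n w R r F M L t a b y)

/-- BO: orthogonality for bilinear bounds. -/
def T_BO : Prop :=
  ∀ (p k n a a' b : ℕ) (s M L x : ℝ), p.Prime → k < p → 1 ≤ k → 1 ≤ a → a ≤ a' → a' ≤ n →
    a' ≤ k * b → b ≤ n → ∀ (ι Ω : Type) [Fintype Ω] (w : Ω → ℝ)
    (R : Finset ι) (r : ι → ℤ) (F : ι → Ω → ℂ), Inv k (p ^ (k * n)) w R r F →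
      BL p s n w R r F M L 1 a' b x → BL p s n w R r F M L 1 a b x

/-- RA: raising the scale of the first class, with cost. -/
def T_RA : Prop :=
  ∀ (p k : ℕ) (σ : ℕ → ℝ) (c' C' : ℝ), p.Prime → k < p → 2 ≤ k → 0 ≤ c' → 0 ≤ C' →
    (∀ l : ℕ, 1 ≤ l → l < k → ∀ n : ℕ, Flat p l (σ l) n (Real.exp (C' * (n : ℝ) ^ c'))) →
    ∃ C'' : ℝ, 0 ≤ C'' ∧ ∀ (s M L x : ℝ) (n l a a' b : ℕ), 0 ≤ M → 1 ≤ l → l < k → 0 ≤ σ l →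
      σ l ≤ s → l ≤ a → a ≤ a' → a' ≤ n → l * a' ≤ (k - l + 1) * b → b ≤ n → 1 ≤ b →
      a' ≤ k ^ 3 * a → ∀ (ι Ω : Type) [Fintype Ω] (w : Ω → ℝ)
      (R : Finset ι) (r : ι → ℤ) (F : ι → Ω → ℂ), (∀ ω, 0 ≤ w ω) →
        Inv k (p ^ (k * n)) w R r F → BL p s n w R r F M L (σ l) a' b x →
        BL p s n w R r F M L (σ l) a b (x - C'' * (a' : ℝ) ^ c')

/-- BN: broad-narrow inequality. -/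
def T_BN : Prop :=
  ∀ (p : ℕ) (s : ℝ) (z : Fin p → ℂ), 1 < p → 1 ≤ s →
    ‖∑ c, z c‖ ^ (2 * s) ≤ 2 ^ (2 * s) * ∑ c, ‖z c‖ ^ (2 * s) +
      (p : ℝ) ^ (2 * s + 2) *
        ∑ c, ∑ c' ∈ univ.filter (fun c' => c' ≠ c), ‖z c'‖ ^ (2 : ℝ) * ‖z c‖ ^ (2 * s - 2)

/-- TV: the trivial bound. -/
def T_TV : Prop :=
  ∀ (p n : ℕ) (s M : ℝ), 1 < p → 1 ≤ s → ∀ (ι Ω : Type) [Fintype Ω] (w : Ω → ℝ)
    (R : Finset ι) (r : ι → ℤ) (F : ι → Ω → ℂ), (∀ ω, 0 ≤ w ω) →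
    (∀ ζ : ℤ, mo w F s (cls p R r n ζ) ≤ M) →
      ∀ a ≤ n, ∀ ξ : ℤ, mo w F s (cls p R r a ξ) ≤ ((p : ℝ) ^ (n - a)) ^ (2 * s) * M

/-- ST: the start of the recursion. -/
def T_ST : Prop :=
  ∀ (p n β : ℕ) (s M L x : ℝ), 32 < p → 2 ≤ s → 1 ≤ β → β ≤ n → 0 < M →
    ∀ (ι Ω : Type) [Fintype Ω] (w : Ω → ℝ)
    (R : Finset ι) (r : ι → ℤ) (F : ι → Ω → ℂ), (∀ ω, 0 ≤ w ω) →
    (∀ a ≤ n, ∀ ξ : ℤ, mo w F s (cls p R r a ξ) ≤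
      Real.exp L * ((p : ℝ) ^ (n - a)) ^ s * M) →
    Real.exp L * ((p : ℝ) ^ n) ^ s * M ≤ mo w F s R →
    BL p s n w R r F M L 1 1 β x →
      x ≤ (2 * s + 5 + 2 * β * s) * Real.log p

/-- MX: the maximum principle for the recursion (pure analysis). -/
def T_MX : Prop :=
  ∀ (k : ℕ) (σ ρ : ℕ → ℝ) (γ η c' C : ℝ), 2 ≤ k → 0 ≤ c' → c' < γ → γ ≤ 1 → 0 ≤ C → 0 < η →
    ∃ (β₀ : ℕ) (Θ₀ : ℝ), 0 < Θ₀ ∧ ∀ (s : ℝ), Par k σ ρ γ η s → ∀ (β N : ℕ)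
      (P : ℕ → ℕ → ℝ → Prop) (T : ℕ → ℕ → Prop) (xT Θ : ℝ),
      β₀ ≤ β → 1 ≤ β → β ≤ N → Θ₀ ≤ Θ →
      (∀ l b : ℕ, ∀ x y : ℝ, y ≤ x → P l b x → P l b y) →
      (∀ l b : ℕ, l < k → β * l ≤ b → b ≤ N → P l b 0) →
      (∀ l b : ℕ, 1 ≤ l → l < k → β * l ≤ b → b ≤ N → T l b → P l b xT) →
      (∀ l b : ℕ, 1 ≤ l → l < k → β * l ≤ b → b ≤ N → ¬ T l b →
        (k - l + 1) * b / l ≤ N ∧ ∀ x y : ℝ, P (k - l) ((k - l + 1) * b / l) x → P (l - 1) b y →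
          P l b (wt k σ s l * x + (1 - wt k σ s l) * y - C * (b : ℝ) ^ c')) →
      (∀ l : ℕ, 1 ≤ l → l < k → Θ * ρ l * (N : ℝ) ^ γ ≤ xT) →
      P 1 β (Θ * ρ 1 * (β : ℝ) ^ γ - 1)

/-- PS: the recursion step for `PP`. -/
def T_PS : Prop :=
  ∀ (p k : ℕ) (σ ρ : ℕ → ℝ) (γ η c' C' : ℝ), p.Prime → k < p → 2 ≤ k → 0 ≤ c' → 0 ≤ C' →
    (∀ l : ℕ, 1 ≤ l → l < k → ∀ n : ℕ, Flat p l (σ l) n (Real.exp (C' * (n : ℝ) ^ c'))) →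
    ∃ C : ℝ, 0 ≤ C ∧ ∀ (s M L : ℝ) (n β : ℕ), Par k σ ρ γ η s → 0 ≤ M → 3 * k ≤ β →
      ∀ (ι Ω : Type) [Fintype Ω] (w : Ω → ℝ)
      (R : Finset ι) (r : ι → ℤ) (F : ι → Ω → ℂ), (∀ ω, 0 ≤ w ω) →
      Inv k (p ^ (k * n)) w R r F →
      (∀ a ≤ n, ∀ ξ : ℤ, mo w F s (cls p R r a ξ) ≤
        Real.exp L * ((p : ℝ) ^ (n - a)) ^ s * M) →
      (∀ ζ : ℤ, mo w F s (cls p R r n ζ) ≤ M) →
      ∀ l b : ℕ, 1 ≤ l → l < k → β * l ≤ b → b ≤ n → (k - l + 1) * b / l ≤ n →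
        ∀ x y : ℝ, PP p k σ s n w R r F M L (k - l) ((k - l + 1) * b / l) x →
          PP p k σ s n w R r F M L (l - 1) b y →
          PP p k σ s n w R r F M L l b
            (wt k σ s l * x + (1 - wt k σ s l) * y - C * (b : ℝ) ^ c')

/-- PT: terminal states. -/
def T_PT : Prop :=
  ∀ (p k : ℕ) (σ ρ : ℕ → ℝ) (γ η s M L xT : ℝ) (n b₁ β : ℕ), 1 < p → 2 ≤ k →
    Par k σ ρ γ η s → 0 ≤ M → 0 ≤ L → 3 * k ≤ β → xT ≤ L / s →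
      ∀ (ι Ω : Type) [Fintype Ω] (w : Ω → ℝ)
      (R : Finset ι) (r : ι → ℤ) (F : ι → Ω → ℂ), (∀ ω, 0 ≤ w ω) →
      (∀ a ≤ n, ∀ ξ : ℤ, mo w F s (cls p R r a ξ) ≤
        Real.exp L * ((p : ℝ) ^ (n - a)) ^ s * M) →
      (∀ ζ : ℤ, mo w F s (cls p R r n ζ) ≤ M) →
      (∀ a b : ℕ, 1 ≤ a → a ≤ n → 1 ≤ b → b₁ ≤ b → b ≤ n → 4 * a ≤ 3 * k * b →
        BL p s n w R r F M L 1 a b xT) →
      ∀ l b : ℕ, 1 ≤ l → l < k → β * l ≤ b → b ≤ n →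
        ((l = 1 ∧ b₁ ≤ b) ∨ (2 ≤ l ∧ (n ≤ (k - l + 1) * b / l ∨
          (b₁ ≤ b ∧ b₁ ≤ (k - l + 1) * b / l)))) →
        PP p k σ s n w R r F M L l b xT

/-- the conclusion of the core theorem -/
def Core (p k : ℕ) (σ ρ : ℕ → ℝ) (γ η smax C : ℝ) : Prop :=
  ∀ (s M L xT : ℝ) (n b₁ : ℕ), Par k σ ρ γ η s → s ≤ smax → 0 < M → 0 ≤ L → xT ≤ L / s →
    ∀ (ι Ω : Type) [Fintype Ω] (w : Ω → ℝ)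
    (R : Finset ι) (r : ι → ℤ) (F : ι → Ω → ℂ), (∀ ω, 0 ≤ w ω) →
    Inv k (p ^ (k * n)) w R r F →
    (∀ a ≤ n, ∀ ξ : ℤ, mo w F s (cls p R r a ξ) ≤
      Real.exp L * ((p : ℝ) ^ (n - a)) ^ s * M) →
    (∀ ζ : ℤ, mo w F s (cls p R r n ζ) ≤ M) →
    Real.exp L * ((p : ℝ) ^ n) ^ s * M ≤ mo w F s R →
    (∀ b : ℕ, b < b₁ → k * b ≤ n) →
    (∀ a b : ℕ, 1 ≤ a → a ≤ n → 1 ≤ b → b₁ ≤ b → b ≤ n → 4 * a ≤ 3 * k * b →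
      BL p s n w R r F M L 1 a b xT) →
      xT ≤ C * ((b₁ : ℝ) + 1) ^ γ

/-- CO: the core theorem. -/
def T_CO : Prop :=
  ∀ (p k : ℕ) (σ ρ : ℕ → ℝ) (γ η smax c' C' : ℝ), p.Prime → k < p → 32 < p → 2 ≤ k →
    0 ≤ c' → c' < γ → γ ≤ 1 → 0 < η → 0 ≤ C' →
    (∀ l : ℕ, 1 ≤ l → l < k → ∀ n : ℕ, Flat p l (σ l) n (Real.exp (C' * (n : ℝ) ^ c'))) →
    ∃ C : ℝ, 0 ≤ C ∧ Core p k σ ρ γ η smax C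

/-- F1: degree one. -/
def T_F1 : Prop := ∀ (p n : ℕ), p.Prime → Flat p 1 1 n 1

/-- PR: existence of parameters. -/
def T_PR : Prop :=
  ∀ (k : ℕ) (s₀ : ℝ), 2 ≤ k → (KK k - 1 < s₀ ∨ (3 ≤ k ∧ KK k - 1 ≤ s₀)) → s₀ < KK k →
    ∃ σ : ℕ → ℝ, σ 1 = 1 ∧ (∀ l : ℕ, 2 ≤ l → l < k → KK l - 1 < σ l ∧ σ l < KK l) ∧
      ∀ c' : ℝ, c' < 1 → ∃ γ : ℝ, c' < γ ∧ 0 < γ ∧ γ < 1 ∧ ∃ (ρ : ℕ → ℝ) (η ε : ℝ),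
        0 < η ∧ 0 < ε ∧ ∀ s : ℝ, s₀ ≤ s → s ≤ s₀ + ε → Par k σ ρ γ η s

/-- MB: the block of maximal normalised moment. -/
def T_MB : Prop :=
  ∀ (p n : ℕ) (s M Λ : ℝ), 1 < p → 0 < M → 0 ≤ Λ → 0 < s → ∀ (ι Ω : Type) [Fintype Ω]
    (w : Ω → ℝ) (R : Finset ι) (r : ι → ℤ) (F : ι → Ω → ℂ), (∀ ω, 0 ≤ w ω) →
    (∀ ζ : ℤ, mo w F s (cls p R r n ζ) ≤ M) →
    (∃ a ≤ n, ∃ ξ : ℤ, Real.exp Λ * ((p : ℝ) ^ (n - a)) ^ s * M < mo w F s (cls p R r a ξ)) →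
    ∃ (a₀ : ℕ) (ξ₀ : ℤ) (L : ℝ), a₀ < n ∧ Λ < L ∧
      mo w F s (cls p R r a₀ ξ₀) = Real.exp L * ((p : ℝ) ^ (n - a₀)) ^ s * M ∧
      ∀ a ≤ n, ∀ ξ : ℤ, mo w F s (cls p R r a ξ) ≤ Real.exp L * ((p : ℝ) ^ (n - a)) ^ s * M

/-- TN: the terminal bound when `n ≤ k b`. -/
def T_TN : Prop :=
  ∀ (p k n a b : ℕ) (s M L : ℝ), p.Prime → k < p → 1 ≤ k → 1 ≤ a → a ≤ n → b ≤ n → n ≤ k * b →
    0 ≤ M → 1 ≤ s → ∀ (ι Ω : Type) [Fintype Ω] (w : Ω → ℝ)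
    (R : Finset ι) (r : ι → ℤ) (F : ι → Ω → ℂ), (∀ ω, 0 ≤ w ω) →
    Inv k (p ^ (k * n)) w R r F →
    (∀ a ≤ n, ∀ ξ : ℤ, mo w F s (cls p R r a ξ) ≤
      Real.exp L * ((p : ℝ) ^ (n - a)) ^ s * M) →
    (∀ ζ : ℤ, mo w F s (cls p R r n ζ) ≤ M) →
      BL p s n w R r F M L 1 a b (L / s)

/-- TA: Theorem A, flat decoupling with subexponential loss below the critical exponent. -/
def T_TA : Prop :=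
  ∀ (k p : ℕ), 2 ≤ k → p.Prime → k < p → 32 < p → ∀ s : ℝ, KK k - 1 < s → s < KK k →
    ∃ C γ : ℝ, 0 ≤ C ∧ 0 < γ ∧ γ < 1 ∧ ∀ n : ℕ, Flat p k s n (Real.exp (C * (n : ℝ) ^ γ))

/-- PH: the second moment of the fluctuation of the square function. -/
def T_PH : Prop :=
  ∀ (p k B a c : ℕ) (ξ : ℤ), p.Prime → 3 ≤ k → a ≤ c → c ≤ B → 1 ≤ B →
    ∀ (ι Ω : Type) [Fintype Ω] (w : Ω → ℝ)
    (R : Finset ι) (r : ι → ℤ) (F : ι → Ω → ℂ), (∀ ω, 0 ≤ w ω) →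
    Inv k (p ^ (k * B)) w R r F → (∀ i ∈ R, ∀ ω, ‖F i ω‖ ≤ 1) → Set.InjOn r R →
    (∀ i ∈ R, 0 ≤ r i ∧ r i < (p : ℤ) ^ B) →
      ∑ ω, w ω * (∑ j ∈ range (p ^ (c - a)),
          ‖bs F (cls p R r c (ξ + (p : ℤ) ^ a * (j : ℤ))) ω‖ ^ 2 -
          ∑ i ∈ cls p R r a ξ, ‖F i ω‖ ^ 2) ^ 2 ≤
        (p : ℝ) ^ (B - a) * (p : ℝ) ^ (B - c) * ∑ ω, w ω

/-- TU: the terminal bound for bounded coefficients (square function concentration). -/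
def T_TU : Prop :=
  ∀ (p k B a b : ℕ) (s s' L L' : ℝ), p.Prime → k < p → 3 ≤ k → 1 ≤ B → 1 ≤ a → 1 ≤ b →
    4 * a ≤ 3 * k * b → k * b ≤ B → 2 ≤ s → s < s' → 0 ≤ L → 0 ≤ L' →
    L' / s' ≤ (k * b / 4 : ℝ) * Real.log p * (1 / s - 1 / s') →
    ∀ (ι Ω : Type) [Fintype Ω] (w : Ω → ℝ)
    (R : Finset ι) (r : ι → ℤ) (F : ι → Ω → ℂ), (∀ ω, 0 ≤ w ω) →
    Inv k (p ^ (k * B)) w R r F → (∀ i ∈ R, ∀ ω, ‖F i ω‖ ≤ 1) → Set.InjOn r R →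
    (∀ i ∈ R, 0 ≤ r i ∧ r i < (p : ℤ) ^ B) →
    (∀ a ≤ B, ∀ ξ : ℤ, mo w F s (cls p R r a ξ) ≤
      Real.exp L * ((p : ℝ) ^ (B - a)) ^ s * ∑ ω, w ω) →
    (∀ a ≤ B, ∀ ξ : ℤ, mo w F s' (cls p R r a ξ) ≤
      Real.exp L' * ((p : ℝ) ^ (B - a)) ^ s' * ∑ ω, w ω) →
      BL p s B w R r F (∑ ω, w ω) L 1 a b (L / s - Real.log 3)

/-- RC: the recursion in the exponent for one system with bounded coefficients. -/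
def T_RC : Prop :=
  ∀ (k p : ℕ), 3 ≤ k → p.Prime → k < p → 32 < p → ∃ (s₁ C γ : ℝ), KK k - 1 < s₁ ∧ 0 ≤ C ∧
    0 < γ ∧ γ < 1 ∧ ∀ (B : ℕ) (ι Ω : Type) [Fintype Ω] (w : Ω → ℝ)
    (R : Finset ι) (r : ι → ℤ) (F : ι → Ω → ℂ), 1 ≤ B → (∀ ω, 0 ≤ w ω) → 0 < ∑ ω, w ω →
    Inv k (p ^ (k * B)) w R r F → (∀ i ∈ R, ∀ ω, ‖F i ω‖ ≤ 1) → Set.InjOn r R →
    (∀ i ∈ R, 0 ≤ r i ∧ r i < (p : ℤ) ^ B) →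
      ∃ Λ : ℝ → ℝ, (∀ s, 0 ≤ Λ s) ∧ (∃ K : ℝ, ∀ s, KK k - 1 ≤ s → s ≤ s₁ → Λ s ≤ K) ∧
        (∀ s, KK k - 1 ≤ s → s ≤ s₁ →
          mo w F s R ≤ Real.exp (Λ s) * ((p : ℝ) ^ B) ^ s * ∑ ω, w ω) ∧
        ∀ s s' : ℝ, KK k - 1 ≤ s → s < s' → s' ≤ s₁ →
          Λ s ≤ C * (1 + Λ s' / (s' - s)) ^ γ

/-- CH: the chain of exponents (pure analysis). -/
def T_CH : Prop :=
  ∀ (s₀ s₁ C γ : ℝ), s₀ < s₁ → 0 ≤ C → 0 < γ → γ < 1 → ∃ C₁ : ℝ, ∀ Λ : ℝ → ℝ,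
    (∀ s, 0 ≤ Λ s) → (∃ K : ℝ, ∀ s, s₀ ≤ s → s ≤ s₁ → Λ s ≤ K) →
    (∀ s s' : ℝ, s₀ ≤ s → s < s' → s' ≤ s₁ → Λ s ≤ C * (1 + Λ s' / (s' - s)) ^ γ) →
      Λ s₀ ≤ C₁

/-- TB: Theorem B, no loss for bounded coefficients. -/
def T_TB : Prop :=
  ∀ (k p : ℕ), 3 ≤ k → p.Prime → k < p → 32 < p → ∃ C : ℝ, 0 ≤ C ∧ ∀ B : ℕ,
    Uni p k (KK k - 1) B C

/-- CN: counting solutions. -/
def T_CN : Prop :=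
  ∀ (k p s B : ℕ) (C : ℝ), 1 ≤ k → p.Prime → 1 ≤ s → (s : ℝ) ≤ KK k - 1 → 0 ≤ C →
    Uni p k (KK k - 1) B C →
      ((sols s k (p ^ B)).card : ℝ) ≤ (C + 1) * ((p : ℝ) ^ B) ^ s

/-- FN: the theorem. -/
def T_FN : Prop :=
  ∀ s k : ℕ, 1 ≤ s → 1 ≤ k → 2 * s < k * (k + 1) → ∃ C : ℝ, ∀ N : ℕ, 1 ≤ N →
    ((sols s k N).card : ℝ) ≤ C * (N : ℝ) ^ s

end Pool.Agent.H22.VM
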