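import Pool.Agent.H87.VM.B0
import Pool.Agent.H87.VM.CL
import Pool.Agent.H87.VM.HO
import Pool.Agent.H49.VM.BN
import Pool.Agent.H15.VM.EX
import Pool.Agent.H76.VM.CH
import Pool.Agent.H98.VM.CN
import Pool.Agent.H98.VM.FN
import Pool.Agent.H35.VM.CO
import Pool.Agent.H35.VM.MX
import Pool.Agent.H35.VM.PS
import Pool.Agent.H65.VM.LN
import Pool.Agent.H65.VM.SG
import Pool.Agent.H94.VM.A
import Pool.Agent.H94.VM.B
import Pool.Agent.H27.VM.OR
import Pool.Agent.H27.VM.PH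
import Pool.Agent.H77.VM.PR
import Pool.Agent.H53.VMV.PT
import Pool.Agent.H92.VM.RA
import Pool.Agent.H92.VM.ST
import Pool.Agent.H62.VM.RC
import Pool.Agent.H62.VM.TA
import Pool.Agent.H62.VM.TU

/-!
# Vinogradov mean values below the critical exponent: assembly (helper22)

Modules by helper15, helper27, helper35, helper49, helper53, helper62, helper65, helper76,
helper77, helper87, helper92, helper94 and helper98.
-/

set_option autoImplicit false

namespace Pool.Agent.H22.VM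

theorem t_EX : T_EX := Pool.Agent.H15.VM.ex
theorem t_CL : T_CL := Pool.Agent.H87.VM.cl
theorem t_HO : T_HO := Pool.Agent.H87.VM.ho
theorem t_BI : T_BI := Pool.Agent.H87.VM.bi t_HO
theorem t_B0 : T_B0 := Pool.Agent.H87.VM.b0 t_HO
theorem t_BN : T_BN := Pool.Agent.H49.VM.bn
theorem t_OR : T_OR := Pool.Agent.H27.VM.or' t_EX t_CL
theorem t_PH : T_PH := Pool.Agent.H27.VM.ph t_EX t_CL
theorem t_BO : T_BO := Pool.Agent.H15.VM.bo t_OR
theorem t_F1 : T_F1 := Pool.Agent.H15.VM.f1 t_CL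
theorem t_CH : T_CH := Pool.Agent.H76.VM.ch
theorem t_CN : T_CN := Pool.Agent.H98.VM.cn t_EX
theorem t_MX : T_MX := Pool.Agent.H35.VM.mx
theorem t_LN : T_LN := Pool.Agent.H65.VM.ln
theorem t_SG : T_SG := Pool.Agent.H65.VM.sg t_EX t_LN
theorem t_R1 : T_R1 := Pool.Agent.H94.VM.r1 t_CL t_SG
theorem t_SB : T_SB := Pool.Agent.H94.VM.sb
theorem t_TV : T_TV := Pool.Agent.H94.VM.tv t_CL
theorem t_TN : T_TN := Pool.Agent.H94.VM.tn t_BO t_B0
theorem t_MB : T_MB := Pool.Agent.H94.VM.mb t_CL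
theorem t_PR : T_PR := Pool.Agent.H77.VM.pr
theorem t_PT : T_PT := Pool.Agent.H53.VMV.t_PT t_BI t_B0
theorem t_RA : T_RA := Pool.Agent.H92.VM.ra t_R1
theorem t_ST : T_ST := Pool.Agent.H92.VM.st t_BN t_CL
theorem t_PS : T_PS := Pool.Agent.H35.VM.ps t_BI t_B0 t_BO t_RA
theorem t_CO : T_CO := Pool.Agent.H35.VM.co t_MX t_PS t_PT t_ST t_TV t_B0
theorem t_TU : T_TU := Pool.Agent.H62.VM.tu t_PH t_OR t_HO
theorem t_TA : T_TA := Pool.Agent.H62.VM.ta t_CO t_F1 t_PR t_MB t_SB t_CL t_TN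
theorem t_RC : T_RC := Pool.Agent.H62.VM.rc t_CO t_F1 t_PR t_MB t_SB t_CL t_TN t_TU t_TA
theorem t_TB : T_TB := Pool.Agent.H94.VM.tb t_RC t_CH
theorem t_FN : T_FN := Pool.Agent.H98.VM.fn t_TB t_CN

end Pool.Agent.H22.VM
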